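import Pool.Agent.Lib.MP_174f4a_gt.SGroup

namespace Pool.Agent.Lib.MP_174f4a_gt

open Topology Filter Set MeasureTheory

/-- the index type: a well order of type ω₁ -/
abbrev I1 : Type := (Cardinal.aleph 1).ord.ToType

instance : Uncountable I1 := by
  rw [← Cardinal.aleph1_le_mk_iff, Cardinal.mk_ord_toType]

lemma countable_Iio (a : I1) : (Set.Iio a).Countable := by
  rw [Cardinal.countable_iff_lt_aleph_one]
  exact Cardinal.mk_Iio_toType_ord_lt a

lemma countable_Iic (a : I1) : (Set.Iic a).Countable := by
  have : Set.Iic a = insert a (Set.Iio a) := by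
    ext x; simp [le_iff_eq_or_lt]
  rw [this]
  exact (countable_Iio a).insert a

/-- Borel isomorphism between the line and the space of real sequences -/
noncomputable def Psi : ℝ ≃ᵐ (ℕ → ℝ) :=
  PolishSpace.measurableEquivOfNotCountable (by
    rw [not_countable_iff]; infer_instance) (by
    rw [not_countable_iff]
    exact (Function.Injective.uncountable (f := fun c : ℝ => (fun _ : ℕ => c)) (by
      intro a b h; exact congrFun h 0)))

lemma exists_next (S : Set ℝ) (hS : S.Countable) : ∃ y : ℝ, y ∉ S ∧ S ⊆ range (Psi y) := by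
  obtain ⟨e, he⟩ := (Set.countable_iff_exists_subset_range).mp hS
  let s : ℝ → (ℕ → ℝ) := fun c n => Nat.casesOn n c e
  have hs : Function.Injective (fun c => Psi.symm (s c)) := by
    intro a b h
    have h1 : s a = s b := Psi.symm.injective h
    exact congrFun h1 0
  have hc : ((fun c => Psi.symm (s c)) ⁻¹' S).Countable := hS.preimage hs
  have : ∃ c, c ∉ (fun c => Psi.symm (s c)) ⁻¹' S := by
    by_contra h
    push Not at h
    have hu : ((fun c => Psi.symm (s c)) ⁻¹' S) = univ := eq_univ_of_forall h
    rw [hu] at hc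
    exact Set.not_countable_univ hc
  obtain ⟨c, hc⟩ := this
  refine ⟨Psi.symm (s c), hc, ?_⟩
  intro y hy
  obtain ⟨n, hn⟩ := he hy
  refine ⟨n + 1, ?_⟩
  simp only [MeasurableEquiv.apply_symm_apply]
  exact hn

open Classical in
/-- the next coded real -/
noncomputable def next (S : Set ℝ) : ℝ := if h : S.Countable then (exists_next S h).choose else 0

lemma next_spec (S : Set ℝ) (h : S.Countable) : next S ∉ S ∧ S ⊆ range (Psi (next S)) := by
  unfold next
  rw [dif_pos h]
  exact (exists_next S h).choose_spec

/-- the coded reals: `xs a` codes an enumeration of all `xs b`, `b < a` -/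
noncomputable def xs : I1 → ℝ :=
  (wellFounded_lt (α := I1)).fix (fun a ih => next (Set.range (fun b : Set.Iio a => ih b.1 b.2)))

lemma xs_eq (a : I1) : xs a = next (Set.range (fun b : Set.Iio a => xs b.1)) := by
  unfold xs
  rw [WellFounded.fix_eq]

lemma xs_spec (a : I1) : (∀ b, b < a → xs b ≠ xs a) ∧ (∀ b, b < a → ∃ n, Psi (xs a) n = xs b) := by
  have hc : (Set.range (fun b : Set.Iio a => xs b.1)).Countable := by
    have := (countable_Iio a).to_subtype
    exact Set.countable_range _
  have h := next_spec _ hc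
  rw [← xs_eq] at h
  constructor
  · intro b hb heq
    exact h.1 ⟨⟨b, hb⟩, heq⟩
  · intro b hb
    exact h.2 ⟨⟨b, hb⟩, rfl⟩

lemma xs_injective : Function.Injective xs := by
  intro a b h
  by_contra hab
  rcases lt_or_gt_of_ne hab with h' | h'
  · exact (xs_spec b).1 a h' h
  · exact (xs_spec a).1 b h' h.symm

/-- the Ulam matrix on the line -/
def mat (k : ℕ) (b : I1) : Set ℝ := {y | Psi y k = xs b ∧ ∀ j < k, Psi y j ≠ xs b}

lemma measurableSet_mat (k : ℕ) (b : I1) : MeasurableSet (mat k b) := by
  have h1 : ∀ j, Measurable (fun y : ℝ => Psi y j) := fun j =>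
    (measurable_pi_apply j).comp Psi.measurable
  have : mat k b = {y | Psi y k = xs b} ∩ ⋂ j ∈ Set.Iio k, {y | Psi y j = xs b}ᶜ := by
    ext y
    simp [mat]
  rw [this]
  apply MeasurableSet.inter
  · exact (h1 k) (measurableSet_singleton _)
  · exact MeasurableSet.biInter (Set.finite_Iio k).countable
      (fun j _ => ((h1 j) (measurableSet_singleton _)).compl)

lemma mat_disjoint (k : ℕ) : Pairwise (Function.onFun Disjoint (mat k)) := by
  intro a b hab
  rw [Function.onFun, Set.disjoint_left]
  intro y hy hy'
  exact hab (xs_injective (hy.1.symm.trans hy'.1))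

lemma mem_iUnion_mat {a b : I1} (h : b < a) : ∃ k, xs a ∈ mat k b := by
  classical
  have := (xs_spec a).2 b h
  exact ⟨Nat.find this, Nat.find_spec this, fun j hj => Nat.find_min this hj⟩

end Pool.Agent.Lib.MP_174f4a_gt
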