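import Pool.Agent.Lib.MP_174f4a_gt.Gen

namespace Pool.Agent.Lib.MP_174f4a_gt

open Topology Filter Set MeasureTheory

universe v

/-- the n-th half-open block to the right of `x` -/
def blk (x : ℝ) (n : ℕ) : Set ℝ := Set.Ico (x + (1/2)^(n+1)) (x + (1/2)^n)

lemma blk_subset_Ioo (x : ℝ) (n : ℕ) : blk x n ⊆ Set.Ioo x (x + 2 * (1/2)^n) := by
  intro y hy
  have h1 : (0 : ℝ) < (1/2)^(n+1) := by positivity
  have h2 : (0 : ℝ) < (1/2)^n := by positivity
  exact ⟨by linarith [hy.1], by linarith [hy.2]⟩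

lemma blk_disjoint (x : ℝ) {m n : ℕ} (h : m ≠ n) : Disjoint (blk x m) (blk x n) := by
  have aux : ∀ m n : ℕ, m < n → Disjoint (blk x m) (blk x n) := by
    intro m n hmn
    rw [Set.disjoint_left]
    intro y hy hy'
    have h3 : ((1 : ℝ)/2)^n ≤ (1/2)^(m+1) :=
      pow_le_pow_of_le_one (by norm_num) (by norm_num) hmn
    have := hy.1
    have := hy'.2
    linarith
  rcases lt_or_gt_of_ne h with h | h
  · exact aux m n h
  · exact (aux n m h).symm

lemma exists_blk {x y : ℝ} (h1 : x < y) (h2 : y < x + 1) : ∃ n, y ∈ blk x n := by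
  classical
  have hex : ∃ m : ℕ, ((1 : ℝ)/2)^m ≤ y - x := by
    obtain ⟨m, hm⟩ := exists_pow_lt_of_lt_one (sub_pos.mpr h1) (show (1 : ℝ)/2 < 1 by norm_num)
    exact ⟨m, hm.le⟩
  obtain ⟨m, hm⟩ : ∃ m, Nat.find hex = m + 1 := by
    apply Nat.exists_eq_succ_of_ne_zero
    intro h0
    have := Nat.find_spec hex
    rw [h0] at this
    norm_num at this
    linarith
  refine ⟨m, ?_, ?_⟩
  · have := Nat.find_spec hex
    rw [hm] at this
    linarith
  · have := Nat.find_min hex (m := m) (by rw [hm]; exact Nat.lt_succ_self m)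
    push Not at this
    linarith

/-- the underlying set of the example -/
def EQ : Set ℝ := EE ∪ Set.range ((↑) : ℚ → ℝ)

/-- the example space -/
def XX : Type := EQ

/-- the underlying real number -/
def XX.val : XX → ℝ := Subtype.val

lemma XX.val_injective : Function.Injective XX.val := Subtype.val_injective

instance : TopologicalSpace XX where
  IsOpen U := ∀ x ∈ U, ∀ᶠ n in (hyperfilter ℕ : Filter ℕ), XX.val ⁻¹' blk x.val n ⊆ U
  isOpen_univ := fun _ _ => Eventually.of_forall (fun _ => subset_univ _)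
  isOpen_inter := by
    intro s t hs ht x hx
    filter_upwards [hs x hx.1, ht x hx.2] with n h1 h2
    exact subset_inter h1 h2
  isOpen_sUnion := by
    intro S hS x hx
    obtain ⟨s, hs, hxs⟩ := hx
    filter_upwards [hS s hs x hxs] with n hn
    exact hn.trans (subset_sUnion_of_mem hs)

lemma XX.isOpen_def {U : Set XX} :
    IsOpen U ↔ ∀ x ∈ U, ∀ᶠ n in (hyperfilter ℕ : Filter ℕ), XX.val ⁻¹' blk x.val n ⊆ U :=
  Iff.rfl

lemma tendsto_two_mul_pow : Tendsto (fun n : ℕ => 2 * ((1 : ℝ)/2)^n) atTop (𝓝 0) := by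
  have := (tendsto_pow_atTop_nhds_zero_of_lt_one (show (0 : ℝ) ≤ 1/2 by norm_num)
    (by norm_num)).const_mul 2
  simpa using this

lemma eventually_blk_subset {x b : ℝ} (h : x < b) : ∀ᶠ n in atTop, blk x n ⊆ Set.Ico x b := by
  filter_upwards [tendsto_two_mul_pow.eventually (gt_mem_nhds (sub_pos.mpr h))] with n hn
  intro y hy
  have := blk_subset_Ioo x n hy
  exact ⟨this.1.le, by linarith [this.2]⟩

lemma XX.eventually_right {U : Set XX} {x : XX} {b : ℝ} (hb : x.val < b)
    (h : XX.val ⁻¹' (Set.Ico x.val b) ⊆ U) :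
    ∀ᶠ n in (hyperfilter ℕ : Filter ℕ), XX.val ⁻¹' blk x.val n ⊆ U := by
  filter_upwards [(eventually_blk_subset hb).filter_mono Nat.hyperfilter_le_atTop] with n hn
  exact (preimage_mono hn).trans h

lemma XX.isOpen_of_right {U : Set XX}
    (h : ∀ x ∈ U, ∃ b, x.val < b ∧ XX.val ⁻¹' (Set.Ico x.val b) ⊆ U) : IsOpen U := by
  rw [XX.isOpen_def]
  intro x hx
  obtain ⟨b, hb, h⟩ := h x hx
  exact XX.eventually_right hb h

lemma XX.isClopen_Iio (a : ℝ) : IsClopen (XX.val ⁻¹' (Set.Iio a)) := by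
  constructor
  · rw [← isOpen_compl_iff]
    apply XX.isOpen_of_right
    intro x hx
    have hx' : a ≤ x.val := not_lt.mp hx
    refine ⟨x.val + 1, by linarith, ?_⟩
    intro y hy
    have : x.val ≤ y.val := hy.1
    exact not_lt.mpr (hx'.trans this)
  · apply XX.isOpen_of_right
    intro x hx
    refine ⟨a, hx, ?_⟩
    intro y hy
    exact hy.2

/-- basic clopen neighbourhoods -/
def XX.nb (x : XX) (A : Set ℕ) : Set XX := {y | y = x ∨ ∃ n ∈ A, y.val ∈ blk x.val n}

lemma XX.isClopen_nb (x : XX) {A : Set ℕ} (hA : A ∈ (hyperfilter ℕ : Filter ℕ)) :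
    IsClopen (XX.nb x A) := by
  constructor
  · rw [← isOpen_compl_iff]
    apply XX.isOpen_of_right
    intro y hy
    have hyx : y ≠ x := fun h => hy (Or.inl h)
    rcases lt_trichotomy y.val x.val with h | h | h
    · refine ⟨x.val, h, ?_⟩
      rintro z hz (rfl | ⟨n, _, hn⟩)
      · exact lt_irrefl _ hz.2
      · have := (blk_subset_Ioo _ _ hn).1
        exact lt_irrefl _ (this.trans hz.2)
    · exact absurd (XX.val_injective h) hyx
    · rcases lt_or_ge y.val (x.val + 1) with h' | h'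
      · obtain ⟨m, hm⟩ := exists_blk h h'
        refine ⟨x.val + (1/2)^m, hm.2, ?_⟩
        rintro z hz (rfl | ⟨n, hn, hzn⟩)
        · have : y.val ≤ z.val := hz.1
          linarith
        · have hz' : z.val ∈ blk x.val m := ⟨hm.1.trans hz.1, hz.2⟩
          by_cases hmn : m = n
          · subst hmn
            exact hy (Or.inr ⟨m, hn, hm⟩)
          · exact Set.disjoint_left.mp (blk_disjoint _ hmn) hz' hzn
      · refine ⟨y.val + 1, by linarith, ?_⟩
        rintro z hz (rfl | ⟨n, hn, hzn⟩)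
        · have : y.val ≤ z.val := hz.1
          linarith
        · have h1 : y.val ≤ z.val := hz.1
          have h2 : z.val < x.val + (1/2)^n := hzn.2
          have h3 : ((1 : ℝ)/2)^n ≤ 1 := pow_le_one₀ (by norm_num) (by norm_num)
          linarith
  · rw [XX.isOpen_def]
    rintro y (rfl | ⟨n, hn, hyn⟩)
    · filter_upwards [hA] with n hn
      intro z hz
      exact Or.inr ⟨n, hn, hz⟩
    · apply XX.eventually_right (b := x.val + (1/2)^n) hyn.2
      intro z hz
      exact Or.inr ⟨n, hn, hyn.1.trans hz.1, hz.2⟩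

lemma XX.exists_nb {U : Set XX} (hU : IsOpen U) {x : XX} (hx : x ∈ U) :
    ∃ A ∈ (hyperfilter ℕ : Filter ℕ), XX.nb x A ⊆ U := by
  refine ⟨{n | XX.val ⁻¹' blk x.val n ⊆ U}, XX.isOpen_def.mp hU x hx, ?_⟩
  rintro y (rfl | ⟨n, hn, hyn⟩)
  · exact hx
  · exact hn hyn

instance : TotallySeparatedSpace XX := totallySeparated_gen XX.val_injective XX.isClopen_Iio

instance : T35Space XX := by
  have : CompletelyRegularSpace XX := by
    apply CompletelyRegularSpace.of_isTopologicalBasis_clopens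
    apply TopologicalSpace.isTopologicalBasis_of_isOpen_of_nhds
    · intro u hu
      exact hu.isOpen
    · intro a u ha hu
      obtain ⟨A, hA, hAu⟩ := XX.exists_nb hu ha
      exact ⟨XX.nb a A, XX.isClopen_nb a hA, Or.inl rfl, hAu⟩
  have : T1Space XX := inferInstance
  constructor

lemma XX.not_isOpen_singleton (x : XX) : ¬ IsOpen ({x} : Set XX) := by
  intro h
  obtain ⟨n, hn⟩ := (XX.isOpen_def.mp h x rfl).exists
  have h1 : (0 : ℝ) < (1/2)^(n+1) := by positivity
  have h2 : x.val + ((1 : ℝ)/2)^(n+1) < x.val + (1/2)^n := by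
    rw [pow_succ]
    have : (0 : ℝ) < (1/2)^n := by positivity
    linarith
  obtain ⟨q, hq1, hq2⟩ := exists_rat_btwn h2
  let y : XX := ⟨(q : ℝ), Or.inr ⟨q, rfl⟩⟩
  have hy : y.val = q := rfl
  have hyx : y = x := hn (show y.val ∈ blk x.val n from ⟨hq1.le, hq2⟩)
  rw [← hy, hyx] at hq1
  linarith

lemma ulamSpace_XX : UlamSpace XX := by
  apply ulamSpace_gen XX.val_injective XX.isClopen_Iio
  apply Set.Countable.mono (s₂ := Set.range ((↑) : ℚ → ℝ)) _ (countable_range _)
  rintro _ ⟨⟨x, rfl⟩, hx⟩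
  rcases x.2 with h | h
  · exact absurd h hx
  · exact h

lemma not_frechetUrysohn_XX : ¬ FrechetUrysohnSpace (Cp XX) := by
  apply not_frechetUrysohn_gen XX.isClopen_Iio
  intro y hy
  exact ⟨⟨y, Or.inl hy⟩, rfl⟩

end Pool.Agent.Lib.MP_174f4a_gt
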