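import Pool.Agent.Lib.MP_174f4a_gt.Crowded

namespace Pool.Agent.Lib.MP_174f4a_gt

open Topology Filter Set MeasureTheory

universe v

/-- an infinite set of natural numbers contains an infinite set that is not in the ultrafilter -/
lemma exists_infinite_not_mem {N : Set ℕ} (hN : N.Infinite) :
    ∃ e : ℕ → ℕ, Function.Injective e ∧ (∀ k, e k ∈ N) ∧
      (Set.range e)ᶜ ∈ (hyperfilter ℕ : Filter ℕ) := by
  let f := hN.natEmbedding
  have hf : Function.Injective (fun k => (f k : ℕ)) :=
    Subtype.val_injective.comp f.injective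
  by_cases h : (Set.range (fun k => (f (2 * k) : ℕ)))ᶜ ∈ (hyperfilter ℕ : Filter ℕ)
  · refine ⟨fun k => (f (2 * k) : ℕ), ?_, fun k => (f (2 * k)).2, h⟩
    intro a b hab
    have := hf hab
    omega
  · have h' : Set.range (fun k => (f (2 * k) : ℕ)) ∈ (hyperfilter ℕ : Filter ℕ) := by
      have := (Ultrafilter.compl_notMem_iff (f := hyperfilter ℕ)).mp h
      exact this
    refine ⟨fun k => (f (2 * k + 1) : ℕ), ?_, fun k => (f (2 * k + 1)).2, ?_⟩
    · intro a b hab
      have := hf hab
      omega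
    · apply mem_of_superset h'
      rintro _ ⟨k, rfl⟩ ⟨l, hl⟩
      have := hf hl
      omega

lemma XX.finite_of_isCompact {K : Set XX} (hK : IsCompact K) : K.Finite := by
  by_contra hinf
  obtain ⟨x, hxK, hx⟩ := Set.Infinite.exists_accPt_of_subset_isCompact hinf hK subset_rfl
  let N : Set ℕ := {n | ∃ y ∈ K, y.val ∈ blk x.val n}
  have hNmem : N ∈ (hyperfilter ℕ : Filter ℕ) := by
    by_contra hcon
    have hc : Nᶜ ∈ (hyperfilter ℕ : Filter ℕ) :=
      (Ultrafilter.compl_mem_iff_notMem (f := hyperfilter ℕ)).mpr hcon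
    have hnb := (XX.isClopen_nb x hc).isOpen
    rw [accPt_iff_nhds] at hx
    obtain ⟨y, ⟨hy1, hy2⟩, hy3⟩ := hx _ (hnb.mem_nhds (Or.inl rfl))
    rcases hy1 with h | ⟨n, hn, hyn⟩
    · exact hy3 h
    · exact hn ⟨y, hy2, hyn⟩
  have hNinf : N.Infinite := by
    intro hfin
    exact (hfin.notMem_hyperfilter) hNmem
  obtain ⟨e, he1, he2, he3⟩ := exists_infinite_not_mem hNinf
  choose y hyK hyb using he2
  obtain ⟨z, hzK, hz⟩ := hK.exists_mapClusterPt_of_frequently (l := atTop) (f := y)
    (Frequently.of_forall hyK)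
  have het : Tendsto e atTop atTop := he1.nat_tendsto_atTop
  rcases lt_trichotomy z.val x.val with h | h | h
  · obtain ⟨k, hk⟩ := (hz.frequently ((XX.isClopen_Iio x.val).isOpen.mem_nhds h)).exists
    have h1 := (blk_subset_Ioo _ _ (hyb k)).1
    exact lt_irrefl _ (h1.trans hk)
  · have hzx : z = x := XX.val_injective h
    rw [hzx] at hz
    have hnb := (XX.isClopen_nb x he3).isOpen
    obtain ⟨k, hk⟩ := (hz.frequently (hnb.mem_nhds (Or.inl rfl))).exists
    rcases hk with hk | ⟨n, hn, hyn⟩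
    · have h1 := (blk_subset_Ioo _ _ (hyb k)).1
      rw [hk] at h1
      exact lt_irrefl _ h1
    · by_cases hne : n = e k
      · exact hn ⟨k, hne.symm⟩
      · exact Set.disjoint_left.mp (blk_disjoint _ hne) hyn (hyb k)
  · have h2 : ∀ᶠ k in atTop, 2 * ((1 : ℝ)/2)^(e k) < z.val - x.val :=
      het.eventually (tendsto_two_mul_pow.eventually (gt_mem_nhds (sub_pos.mpr h)))
    have hopen : IsOpen (XX.val ⁻¹' (Set.Iio z.val))ᶜ := (XX.isClopen_Iio z.val).compl.isOpen
    have hzmem : z ∈ (XX.val ⁻¹' (Set.Iio z.val))ᶜ := by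
      simp only [mem_compl_iff, mem_preimage, mem_Iio, lt_self_iff_false, not_false_eq_true]
    have h3 := hz.frequently (hopen.mem_nhds hzmem)
    obtain ⟨k, hk1, hk2⟩ := (h3.and_eventually h2).exists
    have h4 := (blk_subset_Ioo _ _ (hyb k)).2
    apply hk1
    change (y k).val < z.val
    linarith

/-- pointwise convergence implies convergence in the compact-open topology when all compact
sets are finite -/
lemma continuous_Cp_to_C : Continuous (fun f : Cp XX => (⟨f, f.2⟩ : C(XX, ℝ))) := by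
  rw [ContinuousMap.continuous_compactOpen]
  intro K hK U hU
  have hfin := XX.finite_of_isCompact hK
  have : {f : Cp XX | MapsTo (⟨f, f.2⟩ : C(XX, ℝ)) K U} =
      ⋂ x ∈ K, {f : Cp XX | (f : XX → ℝ) x ∈ U} := by
    ext f
    simp only [mem_iInter]
    rfl
  rw [this]
  apply hfin.isOpen_biInter
  intro x _
  exact hU.preimage ((continuous_apply x).comp continuous_subtype_val)

lemma continuous_C_to_Cp : Continuous (fun g : C(XX, ℝ) => (⟨g, g.2⟩ : Cp XX)) := by
  apply Continuous.subtype_mk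
  exact continuous_pi (fun x => continuous_eval_const x)

lemma isSGroup_C_XX : IsSGroup.{0, v} C(XX, ℝ) := by
  refine ⟨inferInstance, ?_⟩
  intro G _ _ _ _ φ hφ
  let e : Cp XX →+ C(XX, ℝ) :=
    { toFun := fun f => ⟨f, f.2⟩
      map_zero' := rfl
      map_add' := fun _ _ => rfl }
  have he : Continuous e := continuous_Cp_to_C
  have hs : SeqContinuous (φ.comp e) := fun u p hu => hφ (he.seqContinuous hu)
  have h1 := (isSGroup_Cp.{0, v} ulamSpace_XX).2 G (φ.comp e) hs
  exact h1.comp continuous_C_to_Cp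

lemma not_frechetUrysohn_C_XX : ¬ FrechetUrysohnSpace C(XX, ℝ) := by
  intro hFU
  apply not_frechetUrysohn_XX
  have hind : Topology.IsInducing (fun f : Cp XX => (⟨f, f.2⟩ : C(XX, ℝ))) := by
    let h : Cp XX ≃ₜ C(XX, ℝ) :=
      { toFun := fun f => ⟨f, f.2⟩
        invFun := fun g => ⟨g, g.2⟩
        left_inv := fun _ => rfl
        right_inv := fun _ => rfl
        continuous_toFun := continuous_Cp_to_C
        continuous_invFun := continuous_C_to_Cp }
    exact h.isInducing
  exact hind.frechetUrysohnSpace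

end Pool.Agent.Lib.MP_174f4a_gt
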