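import Mathlib

namespace Pool.Agent.Lib.MP_174f4a_gt

open Topology

universe u v

/-- `Cp X`: the additive group of all continuous functions `X → ℝ`, as a subgroup of the full
product `X → ℝ`; its topology is the subspace topology of the product topology, that is, the
topology of pointwise convergence. -/
def Cp (X : Type u) [TopologicalSpace X] : AddSubgroup (X → ℝ) where
  carrier := {f | Continuous f}
  add_mem' := fun hf hg => hf.add hg
  zero_mem' := (continuous_zero : Continuous (0 : X → ℝ))
  neg_mem' := fun hf => hf.neg

/-- A topological group `V` (written additively) is an s-group if it is Hausdorff and every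
sequentially continuous homomorphism from `V` to a Hausdorff topological group `G`
(written additively, not necessarily commutative) is continuous. -/
def IsSGroup (V : Type u) [AddGroup V] [TopologicalSpace V] : Prop :=
  T2Space V ∧
    ∀ (G : Type v) [AddGroup G] [TopologicalSpace G] [IsTopologicalAddGroup G] [T2Space G]
      (φ : V →+ G), SeqContinuous φ → Continuous φ

/-- The Sorgenfrey line: the real numbers with the topology generated by the half-open
intervals `[a, b)`. -/
def Sorgenfrey : Type := ℝ

instance : TopologicalSpace Sorgenfrey :=
  TopologicalSpace.generateFrom {s : Set ℝ | ∃ a b : ℝ, s = Set.Ico a b}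

end Pool.Agent.Lib.MP_174f4a_gt
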