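import Pool.Agent.Lib.MP_174f4a_gt.Sorg

namespace Pool.Agent.Lib.MP_174f4a_gt

open Topology Filter Set MeasureTheory

universe u

/-- the set `{ ± exp (xs a) }` of reals -/
def EE : Set ℝ := {y | y ≠ 0 ∧ Real.log y ∈ Set.range xs}

section general

variable {X : Type u} [TopologicalSpace X] {r : X → ℝ}

lemma isClopen_preimage_Ico (hr : ∀ a, IsClopen (r ⁻¹' (Set.Iio a))) (a b : ℝ) :
    IsClopen (r ⁻¹' (Set.Ico a b)) := by
  have : r ⁻¹' (Set.Ico a b) = (r ⁻¹' (Set.Iio a))ᶜ ∩ r ⁻¹' (Set.Iio b) := by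
    ext x; simp
  rw [this]
  exact (hr a).compl.inter (hr b)

lemma totallySeparated_gen (hinj : Function.Injective r)
    (hr : ∀ a, IsClopen (r ⁻¹' (Set.Iio a))) : TotallySeparatedSpace X := by
  constructor
  have aux : ∀ x y : X, r x < r y → ∃ u v : Set X, IsOpen u ∧ IsOpen v ∧ x ∈ u ∧ y ∈ v ∧
      univ ⊆ u ∪ v ∧ Disjoint u v := by
    intro x y h
    refine ⟨r ⁻¹' (Set.Iio (r y)), (r ⁻¹' (Set.Iio (r y)))ᶜ,
      (hr _).isOpen, (hr _).compl.isOpen, h, (by simp), ?_, ?_⟩
    · intro z _
      exact em _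
    · exact disjoint_compl_right
  intro x _ y _ hxy
  rcases lt_or_gt_of_ne (fun h => hxy (hinj h) : r x ≠ r y) with h | h
  · exact aux x y h
  · obtain ⟨u, v, hu, hv, hy, hx, huv, hd⟩ := aux y x h
    exact ⟨v, u, hv, hu, hx, hy, by rwa [union_comm], hd.symm⟩

lemma measurable_gen (hr : ∀ a, IsClopen (r ⁻¹' (Set.Iio a))) :
    Measurable[clopenSigma X] r := by
  let _ : MeasurableSpace X := clopenSigma X
  apply measurable_of_Iio
  intro a
  apply MeasurableSpace.measurableSet_generateFrom
  exact hr a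

lemma ulamSpace_gen (hinj : Function.Injective r)
    (hr : ∀ a, IsClopen (r ⁻¹' (Set.Iio a))) (hc : (Set.range r \ EE).Countable) :
    UlamSpace X := by
  refine ⟨?_, I1, fun k b => r ⁻¹' (Real.log ⁻¹' (mat k b)), inferInstance, ?_, ?_, ?_⟩
  · intro x
    have : ({x} : Set X) = r ⁻¹' {r x} := by
      ext y
      simp only [mem_singleton_iff, mem_preimage]
      exact ⟨fun h => by rw [h], fun h => hinj h⟩
    rw [this]
    exact measurable_gen hr (measurableSet_singleton _)
  · intro k b
    exact measurable_gen hr (Real.measurable_log (measurableSet_mat k b))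
  · intro k a b hab
    exact ((mat_disjoint k hab).preimage _).preimage _
  · intro b
    apply Set.countable_of_injective_of_countable_image hinj.injOn
    apply Set.Countable.mono
      (s₂ := (Set.range r \ EE) ∪ ⋃ c ∈ Set.Iic b, {Real.exp (xs c), -Real.exp (xs c)})
    · rintro _ ⟨y, hy, rfl⟩
      by_cases hE : r y ∈ EE
      swap
      · exact Or.inl ⟨mem_range_self y, hE⟩
      right
      obtain ⟨hy0, c, hc⟩ := hE
      have hcb : c ≤ b := by
        by_contra hlt
        push Not at hlt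
        obtain ⟨k, hk⟩ := mem_iUnion_mat hlt
        apply hy
        simp only [mem_iUnion, mem_preimage]
        refine ⟨k, ?_⟩
        rw [← hc]; exact hk
      simp only [mem_iUnion]
      refine ⟨c, hcb, ?_⟩
      have hexp : Real.exp (xs c) = |r y| := by
        rw [hc]
        exact Real.exp_log_eq_abs hy0
      rw [hexp]
      rcases abs_choice (r y) with h | h
      · left; exact h.symm
      · right
        change r y = - |r y|
        rw [h, neg_neg]
    · exact hc.union ((countable_Iic b).biUnion (fun c _ => by simp))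

/-- a clopen neighbourhood of a finite set of reals that meets the antidiagonal only in the
obvious points -/
lemma exists_nbhd_gen (hr : ∀ a, IsClopen (r ⁻¹' (Set.Iio a))) (F : Finset ℝ) :
    ∃ U : Set ℝ, IsClopen (r ⁻¹' U) ∧ (↑F ⊆ U) ∧ ∀ t, t ∈ U → -t ∈ U → t ∈ F := by
  obtain ⟨ε, hε, h⟩ := exists_eps F
  refine ⟨⋃ x ∈ F, Set.Ico x (x + ε), ?_, ?_, ?_⟩
  · have : r ⁻¹' (⋃ x ∈ F, Set.Ico x (x + ε)) = ⋃ x ∈ F, r ⁻¹' (Set.Ico x (x + ε)) := by
      simp only [preimage_iUnion]
    rw [this]
    exact isClopen_biUnion_finset (fun x _ => isClopen_preimage_Ico hr _ _)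
  · intro x hx
    simp only [mem_iUnion]
    exact ⟨x, hx, le_rfl, by linarith⟩
  · intro t ht ht'
    simp only [mem_iUnion, mem_Ico] at ht ht'
    obtain ⟨x, hx, hx1, hx2⟩ := ht
    obtain ⟨y, hy, hy1, hy2⟩ := ht'
    by_cases hxy : x + y = 0
    · have : t = x := by linarith
      rw [this]; exact hx
    · exfalso
      have := h x hx y hy hxy
      rcases abs_cases (x + y) with ⟨h1, h2⟩ | ⟨h1, h2⟩
      · apply hxy; linarith
      · linarith

lemma not_frechetUrysohn_gen
    (hr : ∀ a, IsClopen (r ⁻¹' (Set.Iio a))) (hE : EE ⊆ Set.range r) :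
    ¬ FrechetUrysohnSpace (Cp X) := by
  classical
  intro hFU
  choose U hU1 hU2 hU3 using exists_nbhd_gen hr
  let V : Finset X → Set X := fun F => r ⁻¹' (U (F.image r))
  have hV : ∀ F, IsClopen (V F) := fun F => hU1 _
  let f : Finset X → Cp X := fun F => cind (V F)ᶜ (hV F).compl 1
  have h0 : (0 : Cp X) ∈ closure (Set.range f) := by
    rw [mem_closure_iff_nhds]
    intro W hW
    rw [nhds_subtype_eq_comap, mem_comap] at hW
    obtain ⟨t, ht, htW⟩ := hW
    rw [nhds_pi, Filter.mem_pi] at ht
    obtain ⟨I, hI, s, hs, hst⟩ := ht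
    refine ⟨f hI.toFinset, htW ?_, mem_range_self _⟩
    apply hst
    intro x hx
    have hxV : x ∈ V hI.toFinset := by
      apply hU2
      simp only [Finset.coe_image]
      exact ⟨x, by simpa using hx, rfl⟩
    have : (f hI.toFinset : X → ℝ) x = 0 := cind_of_notMem _ _ (by simpa using hxV)
    rw [this]
    exact mem_of_mem_nhds (hs x)
  rw [mem_closure_iff_seq_limit] at h0
  obtain ⟨u, hu, hlim⟩ := h0
  choose F hF using hu
  rw [tendsto_Cp_iff] at hlim
  have hkey : ∀ x : X, ∀ᶠ i in atTop, r x ∈ U ((F i).image r) := by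
    intro x
    have := (hlim x).eventually (gt_mem_nhds (show ((0 : Cp X) : X → ℝ) x < 1 from one_pos))
    filter_upwards [this] with i hi
    by_contra hcon
    rw [← hF i] at hi
    have : (f (F i) : X → ℝ) x = 1 := cind_of_mem _ _ hcon
    rw [this] at hi
    exact lt_irrefl _ hi
  have key : ∀ a : I1, ∃ i, Real.exp (xs a) ∈ (F i).image r := by
    intro a
    obtain ⟨p, hp⟩ := hE (show Real.exp (xs a) ∈ EE from
      ⟨(Real.exp_pos _).ne', a, (Real.log_exp _).symm⟩)
    obtain ⟨m, hm⟩ := hE (show -Real.exp (xs a) ∈ EE from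
      ⟨(neg_lt_zero.mpr (Real.exp_pos _)).ne, a, by rw [Real.log_neg_eq_log, Real.log_exp]⟩)
    obtain ⟨i, hi1, hi2⟩ := ((hkey p).and (hkey m)).exists
    rw [hp] at hi1
    rw [hm] at hi2
    exact ⟨i, hU3 _ _ hi1 hi2⟩
  have hcount : (Set.range (fun a : I1 => Real.exp (xs a))).Countable := by
    apply Set.Countable.mono (s₂ := ⋃ i, (((F i).image r : Finset ℝ) : Set ℝ))
    · rintro _ ⟨a, rfl⟩
      obtain ⟨i, hi⟩ := key a
      exact mem_iUnion.mpr ⟨i, hi⟩
    · exact countable_iUnion (fun i => (Finset.finite_toSet _).countable)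
  have : Countable I1 := by
    have hinj : Function.Injective (fun a : I1 => Real.exp (xs a)) :=
      Real.exp_injective.comp xs_injective
    rw [← Set.image_univ] at hcount
    exact Set.countable_univ_iff.mp
      (Set.countable_of_injective_of_countable_image hinj.injOn hcount)
  exact not_countable (α := I1) this

end general

end Pool.Agent.Lib.MP_174f4a_gt
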