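import Pool.Agent.Lib.MP_174f4a_gt.Sorg

namespace Pool.Agent.Lib.MP_174f4a_gt

open Topology Filter Set

open Sorgenfrey

lemma exists_Ico_subset {U : Set Sorgenfrey} (hU : IsOpen U) :
    ∀ x ∈ U, ∃ b : ℝ, val x < b ∧ val ⁻¹' (Set.Ico (val x) b) ⊆ U := by
  have hU' : TopologicalSpace.GenerateOpen {s : Set ℝ | ∃ a b : ℝ, s = Set.Ico a b} U := hU
  induction hU' with
  | basic s hs =>
    obtain ⟨a, b, rfl⟩ := hs
    intro x hx
    refine ⟨b, hx.2, ?_⟩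
    intro y hy
    exact ⟨le_trans hx.1 hy.1, hy.2⟩
  | univ =>
    intro x _
    exact ⟨val x + 1, by linarith, subset_univ _⟩
  | inter s t hs ht ihs iht =>
    intro x hx
    obtain ⟨b, hb, hb'⟩ := ihs hs x hx.1
    obtain ⟨c, hc, hc'⟩ := iht ht x hx.2
    refine ⟨min b c, lt_min hb hc, ?_⟩
    intro y hy
    exact ⟨hb' ⟨hy.1, lt_of_lt_of_le hy.2 (min_le_left _ _)⟩,
      hc' ⟨hy.1, lt_of_lt_of_le hy.2 (min_le_right _ _)⟩⟩
  | sUnion S hS ih =>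
    intro x hx
    obtain ⟨s, hs, hxs⟩ := hx
    obtain ⟨b, hb, hb'⟩ := ih s hs (hS s hs) x hxs
    exact ⟨b, hb, hb'.trans (subset_sUnion_of_mem hs)⟩

lemma isLindelof_sorgenfrey (T : Set Sorgenfrey) : IsLindelof T := by
  apply isLindelof_of_countable_subcover
  intro ι U hU hT
  -- the Euclidean interiors
  let W : ι → Set ℝ := fun i => interior {x : ℝ | (show Sorgenfrey from x) ∈ U i}
  have hW : ∀ i, IsOpen (W i) := fun i => isOpen_interior
  obtain ⟨t, ht, htW⟩ := TopologicalSpace.isOpen_iUnion_countable W hW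
  let R : Set ℝ := {x : ℝ | (show Sorgenfrey from x) ∈ T ∧ x ∉ ⋃ i, W i}
  have hR : R.Countable := by
    apply Set.Countable.mono (s₂ := {x ∈ R | 𝓝[R ∩ Set.Ioi x] x = ⊥}) ?_
      countable_setOfPred_isolated_right_within
    intro x hx
    refine ⟨hx, ?_⟩
    obtain ⟨i, hi⟩ := mem_iUnion.mp (hT hx.1)
    obtain ⟨b, hb, hbU⟩ := exists_Ico_subset (hU i) _ hi
    have hsub : Set.Ioo x b ⊆ W i := by
      apply interior_maximal _ isOpen_Ioo
      intro y hy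
      exact hbU ⟨hy.1.le, hy.2⟩
    rw [← empty_mem_iff_bot, mem_nhdsWithin]
    refine ⟨Set.Iio b, isOpen_Iio, hb, ?_⟩
    rintro y ⟨hyb, hyR, hyx⟩
    exact hyR.2 (mem_iUnion.mpr ⟨i, hsub ⟨hyx, hyb⟩⟩)
  have hpick : ∀ x : R, ∃ i, (show Sorgenfrey from x.1) ∈ U i := fun x => mem_iUnion.mp (hT x.2.1)
  choose j hj using hpick
  have := hR.to_subtype
  have hcov : ∀ y : ℝ, (show Sorgenfrey from y) ∈ T →
      ∃ i ∈ t ∪ Set.range j, (show Sorgenfrey from y) ∈ U i := by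
    intro y hy
    by_cases hyW : y ∈ ⋃ i, W i
    · have hyW' : y ∈ ⋃ i ∈ t, W i := by rw [htW]; exact hyW
      simp only [Set.mem_iUnion] at hyW'
      obtain ⟨i, hi, hyi⟩ := hyW'
      have hyi' : y ∈ {x : ℝ | (show Sorgenfrey from x) ∈ U i} :=
        (interior_subset : interior {x : ℝ | (show Sorgenfrey from x) ∈ U i} ⊆ _) hyi
      exact ⟨i, Or.inl hi, hyi'⟩
    · exact ⟨j ⟨y, hy, hyW⟩, Or.inr ⟨_, rfl⟩, hj ⟨y, hy, hyW⟩⟩
  refine ⟨t ∪ Set.range j, ht.union (countable_range j), ?_⟩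
  intro x hx
  obtain ⟨i, hi, hxi⟩ := hcov x hx
  exact mem_iUnion₂.mpr ⟨i, hi, hxi⟩

instance (S : Set Sorgenfrey) : LindelofSpace S := by
  rw [← isLindelof_iff_lindelofSpace]
  exact isLindelof_sorgenfrey S

end Pool.Agent.Lib.MP_174f4a_gt
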