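import Pool.Agent.Lib.MP_174f4a_gt.Defs

namespace Pool.Agent.Lib.MP_174f4a_gt

open Topology Filter Set MeasureTheory

universe u v

variable {X : Type u} [TopologicalSpace X]

lemma Cp.continuous (f : Cp X) : Continuous (f : X → ℝ) := f.2

/-- restriction of a continuous function to a clopen set, extended by zero -/
noncomputable def res (A : Set X) (hA : IsClopen A) (f : Cp X) : Cp X :=
  ⟨A.indicator (f : X → ℝ), f.2.indicator (by
    intro a ha
    rw [hA.frontier_eq] at ha
    exact absurd ha (Set.notMem_empty a))⟩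

lemma res_apply_of_mem {A : Set X} (hA : IsClopen A) (f : Cp X) {x : X} (hx : x ∈ A) :
    (res A hA f : X → ℝ) x = (f : X → ℝ) x := Set.indicator_of_mem hx _

lemma res_apply_of_notMem {A : Set X} (hA : IsClopen A) (f : Cp X) {x : X} (hx : x ∉ A) :
    (res A hA f : X → ℝ) x = 0 := Set.indicator_of_notMem hx _

lemma tendsto_Cp_iff {ι : Type*} {l : Filter ι} {f : ι → Cp X} {g : Cp X} :
    Tendsto f l (𝓝 g) ↔ ∀ x, Tendsto (fun i => (f i : X → ℝ) x) l (𝓝 ((g : X → ℝ) x)) := by
  rw [tendsto_subtype_rng, tendsto_pi_nhds]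

/-- A decreasing scale of sequential neighbourhoods of zero in `Cp X`. -/
structure Scale (P : ℕ → Set (Cp X)) : Prop where
  zero : ∀ n, (0 : Cp X) ∈ P n
  add : ∀ n f g, f ∈ P (n + 1) → g ∈ P (n + 1) → f + g ∈ P n
  seq : ∀ n (u : ℕ → Cp X), Tendsto u atTop (𝓝 0) → ∀ᶠ k in atTop, u k ∈ P n
  closed : ∀ n (u : ℕ → Cp X) (f : Cp X), Tendsto u atTop (𝓝 f) → (∀ k, u k ∈ P n) → f ∈ P n

/-- all functions supported in `A` lie in `P n` -/
def NullAt (P : ℕ → Set (Cp X)) (n : ℕ) (A : Set X) : Prop :=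
  ∀ f : Cp X, (∀ x, x ∉ A → (f : X → ℝ) x = 0) → f ∈ P n

/-- `B` can be covered by an increasing sequence of clopen sets that are null at level `n` -/
def Small (P : ℕ → Set (Cp X)) (n : ℕ) (B : Set X) : Prop :=
  ∃ A : ℕ → Set X, (∀ i, IsClopen (A i)) ∧ Monotone A ∧ (∀ i, NullAt P n (A i)) ∧ B ⊆ ⋃ i, A i

variable {P : ℕ → Set (Cp X)}

lemma Scale.mono_succ (hP : Scale P) (n : ℕ) : P (n + 1) ⊆ P n := by
  intro f hf
  have := hP.add n f 0 hf (hP.zero _)
  simpa using this

lemma Scale.anti (hP : Scale P) : Antitone P := antitone_nat_of_succ_le hP.mono_succ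

lemma NullAt.mono {n : ℕ} {A B : Set X} (h : NullAt P n B) (hAB : A ⊆ B) : NullAt P n A :=
  fun f hf => h f (fun x hx => hf x (fun hxA => hx (hAB hxA)))

lemma NullAt.empty (hP : Scale P) (n : ℕ) : NullAt P n ∅ := by
  intro f hf
  have : f = 0 := by
    apply Subtype.ext; funext x; exact hf x (Set.notMem_empty x)
  rw [this]; exact hP.zero n

lemma NullAt.anti (hP : Scale P) {n m : ℕ} (hnm : n ≤ m) {A : Set X} (h : NullAt P m A) :
    NullAt P n A := fun f hf => hP.anti hnm (h f hf)

lemma NullAt.union (hP : Scale P) {n : ℕ} {A B : Set X} (hA : IsClopen A)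
    (h1 : NullAt P (n + 1) A) (h2 : NullAt P (n + 1) B) : NullAt P n (A ∪ B) := by
  intro f hf
  have h : f = res A hA f + res Aᶜ hA.compl f := by
    apply Subtype.ext
    exact (Set.indicator_self_add_compl A (f : X → ℝ)).symm
  rw [h]
  apply hP.add
  · exact h1 _ (fun x hx => res_apply_of_notMem hA f hx)
  · apply h2
    intro x hx
    by_cases hxA : x ∈ A
    · exact res_apply_of_notMem hA.compl f (by simpa using hxA)
    · rw [res_apply_of_mem hA.compl f hxA]
      exact hf x (by simp [hxA, hx])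

lemma NullAt.iUnion_lt (hP : Scale P) :
    ∀ (k n : ℕ) (A : ℕ → Set X), (∀ i, IsClopen (A i)) → (∀ i, i < k → NullAt P (n + 1 + i) (A i)) →
      NullAt P n (⋃ i, ⋃ (_ : i < k), A i) := by
  intro k
  induction k with
  | zero => intro n A _ _; simpa using NullAt.empty hP n
  | succ k ih =>
    intro n A hA hN
    have h1 : NullAt P (n + 1) (A 0) := by simpa using hN 0 (Nat.succ_pos k)
    have h2 : NullAt P (n + 1) (⋃ i, ⋃ (_ : i < k), A (i + 1)) := by
      apply ih (n + 1) (fun i => A (i + 1)) (fun i => hA (i + 1))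
      intro i hi
      have := hN (i + 1) (by omega)
      have e : n + 1 + (i + 1) = n + 1 + 1 + i := by omega
      rwa [e] at this
    refine (NullAt.union hP (hA 0) h1 h2).mono ?_
    intro x hx
    simp only [mem_iUnion] at hx
    obtain ⟨i, hi, hx⟩ := hx
    rcases Nat.eq_zero_or_pos i with rfl | hpos
    · exact Or.inl hx
    · right
      simp only [mem_iUnion]
      exact ⟨i - 1, by omega, by rwa [Nat.sub_add_cancel hpos]⟩

lemma Small.mono {n : ℕ} {A B : Set X} (h : Small P n B) (hAB : A ⊆ B) : Small P n A := by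
  obtain ⟨C, h1, h2, h3, h4⟩ := h
  exact ⟨C, h1, h2, h3, hAB.trans h4⟩

lemma Small.anti (hP : Scale P) {n m : ℕ} (hnm : n ≤ m) {A : Set X} (h : Small P m A) :
    Small P n A := by
  obtain ⟨C, h1, h2, h3, h4⟩ := h
  exact ⟨C, h1, h2, fun i => (h3 i).anti hP hnm, h4⟩

lemma Small.of_nullAt {n : ℕ} {A : Set X} (hA : IsClopen A) (h : NullAt P n A) : Small P n A :=
  ⟨fun _ => A, fun _ => hA, monotone_const, fun _ => h, by
    intro x hx; simp only [mem_iUnion]; exact ⟨0, hx⟩⟩

lemma Small.iUnion (hP : Scale P) {n : ℕ} (B : ℕ → Set X) (h : ∀ j, Small P (n + 1 + j) (B j)) :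
    Small P n (⋃ j, B j) := by
  choose A hA1 hA2 hA3 hA4 using h
  refine ⟨fun i => ⋃ j, ⋃ (_ : j < i), A j i, ?_, ?_, ?_, ?_⟩
  · intro i
    change IsClopen (⋃ j ∈ Set.Iio i, A j i)
    exact (Set.finite_Iio i).isClopen_biUnion (fun j _ => hA1 j i)
  · intro i i' hii'
    simp only
    intro x hx
    simp only [mem_iUnion] at hx ⊢
    obtain ⟨j, hj, hx⟩ := hx
    exact ⟨j, by omega, hA2 j hii' hx⟩
  · intro i
    exact NullAt.iUnion_lt hP i n (fun j => A j i) (fun j => hA1 j i) (fun j _ => hA3 j i)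
  · intro x hx
    simp only [mem_iUnion] at hx ⊢
    obtain ⟨j, hx⟩ := hx
    have := hA4 j hx
    simp only [mem_iUnion] at this
    obtain ⟨i, hi⟩ := this
    exact ⟨max i (j + 1), j, by omega, hA2 j (le_max_left _ _) hi⟩

lemma Small.union (hP : Scale P) {n : ℕ} {B C : Set X} (h1 : Small P (n + 1) B)
    (h2 : Small P (n + 1) C) : Small P n (B ∪ C) := by
  obtain ⟨A, a1, a2, a3, a4⟩ := h1
  obtain ⟨A', b1, b2, b3, b4⟩ := h2
  refine ⟨fun i => A i ∪ A' i, fun i => (a1 i).union (b1 i), ?_, fun i =>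
    NullAt.union hP (a1 i) (a3 i) (b3 i), ?_⟩
  · intro i j hij
    exact union_subset_union (a2 hij) (b2 hij)
  · rw [iUnion_union_distrib]
    exact union_subset_union a4 b4

/-- exhaustivity -/
lemma eventually_nullAt (hP : Scale P) (n : ℕ) (A : ℕ → Set X)
    (hd : Pairwise (Function.onFun Disjoint A)) : ∀ᶠ i in atTop, NullAt P n (A i) := by
  classical
  have key : ∀ i, ∃ f : Cp X, (∀ x, x ∉ A i → (f : X → ℝ) x = 0) ∧ (f ∈ P n → NullAt P n (A i)) := by
    intro i
    by_cases h : NullAt P n (A i)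
    · exact ⟨0, fun x _ => rfl, fun _ => h⟩
    · unfold NullAt at h
      push Not at h
      obtain ⟨f, hf1, hf2⟩ := h
      exact ⟨f, hf1, fun h => absurd h hf2⟩
  choose f hf1 hf2 using key
  have hlim : Tendsto f atTop (𝓝 0) := by
    rw [tendsto_Cp_iff]
    intro x
    have : ∀ᶠ i in atTop, (f i : X → ℝ) x = 0 := by
      by_cases hx : ∃ i, x ∈ A i
      · obtain ⟨i, hi⟩ := hx
        filter_upwards [eventually_gt_atTop i] with j hj
        apply hf1
        intro hxj
        exact (Set.disjoint_left.mp (hd (ne_of_lt hj)) hi) hxj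
      · push Not at hx
        exact Eventually.of_forall (fun i => hf1 i x (hx i))
    exact tendsto_const_nhds.congr' (by filter_upwards [this] with i hi; rw [hi]; rfl)
  filter_upwards [hP.seq n f hlim] with i hi using hf2 i hi

lemma exists_small_tail (hP : Scale P) (n : ℕ) (C : ℕ → Set X) (hC : ∀ i, IsClopen (C i))
    (hm : Monotone C) : ∃ i, Small P n ((⋃ j, C j) \ C i) := by
  by_contra hcon
  push Not at hcon
  have step : ∀ i, ∃ j, i < j ∧ ¬ NullAt P n (C j \ C i) := by
    intro i
    by_contra h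
    push Not at h
    apply hcon i
    refine ⟨fun j => C j \ C i, fun j => (hC j).diff (hC i), ?_, ?_, ?_⟩
    · intro j k hjk
      exact sdiff_subset_sdiff_left (hm hjk)
    · intro j
      by_cases hij : i < j
      · exact h j hij
      · have : C j \ C i = ∅ := by
          rw [sdiff_eq_empty]; exact hm (not_lt.mp hij)
        simp only [this]
        exact NullAt.empty hP n
    · intro x hx
      obtain ⟨hx1, hx2⟩ := hx
      simp only [mem_iUnion] at hx1 ⊢
      obtain ⟨j, hj⟩ := hx1
      exact ⟨j, hj, hx2⟩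
  choose g hg1 hg2 using step
  let s : ℕ → ℕ := fun k => g^[k] 0
  have hs : ∀ k, s (k + 1) = g (s k) := by
    intro k; simp only [s, Function.iterate_succ_apply']
  have hsm : StrictMono s := strictMono_nat_of_lt_succ (fun k => by rw [hs]; exact hg1 _)
  have hd : Pairwise (Function.onFun Disjoint (fun k => C (s (k + 1)) \ C (s k))) := by
    have aux : ∀ j k, j < k → Disjoint (C (s (j + 1)) \ C (s j)) (C (s (k + 1)) \ C (s k)) := by
      intro j k hjk
      rw [Set.disjoint_left]
      intro x hx hx'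
      exact hx'.2 (hm (hsm.monotone (by omega : j + 1 ≤ k)) hx.1)
    intro j k hjk
    rcases lt_or_gt_of_ne hjk with h | h
    · exact aux j k h
    · exact (aux k j h).symm
  have := eventually_nullAt hP n (fun k => C (s (k + 1)) \ C (s k)) hd
  obtain ⟨k, hk⟩ := this.exists
  rw [hs] at hk
  exact hg2 (s k) hk

/-- the σ-algebra generated by the clopen sets -/
@[reducible] def clopenSigma (X : Type u) [TopologicalSpace X] : MeasurableSpace X :=
  MeasurableSpace.generateFrom {s | IsClopen s}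

lemma exists_clopen_approx (hP : Scale P) (B : Set X) (hB : MeasurableSet[clopenSigma X] B) :
    ∀ n, ∃ A : Set X, IsClopen A ∧ Small P n ((B \ A) ∪ (A \ B)) := by
  induction B, hB using MeasurableSpace.generateFrom_induction with
  | hC t ht _ =>
    intro n
    refine ⟨t, ht, ?_⟩
    simpa using Small.of_nullAt isClopen_empty (NullAt.empty hP n)
  | empty =>
    intro n
    refine ⟨∅, isClopen_empty, ?_⟩
    simpa using Small.of_nullAt isClopen_empty (NullAt.empty hP n)
  | compl t _ ih =>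
    intro n
    obtain ⟨A, hA, hs⟩ := ih n
    refine ⟨Aᶜ, hA.compl, hs.mono ?_⟩
    intro x hx
    rcases hx with hx | hx
    · exact Or.inr ⟨by simpa using hx.2, hx.1⟩
    · exact Or.inl ⟨by simpa using hx.2, hx.1⟩
  | iUnion s _ ih =>
    intro n
    choose A hA hs using fun j => ih j (n + 1 + 1 + j)
    obtain ⟨i, hi⟩ := exists_small_tail hP (n + 1) (fun i => ⋃ j ∈ Set.Iic i, A j)
      (fun i => (Set.finite_Iic i).isClopen_biUnion (fun j _ => hA j))
      (fun i j hij => biUnion_subset_biUnion_left (Set.Iic_subset_Iic.mpr hij))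
    refine ⟨⋃ j ∈ Set.Iic i, A j, (Set.finite_Iic i).isClopen_biUnion (fun j _ => hA j), ?_⟩
    have h2 : Small P (n + 1) (⋃ j, ((s j \ A j) ∪ (A j \ s j))) := Small.iUnion hP _ hs
    refine (Small.union hP h2 hi).mono ?_
    intro x hx
    rcases hx with ⟨hx1, hx2⟩ | ⟨hx1, hx2⟩
    · simp only [mem_iUnion] at hx1
      obtain ⟨j, hj⟩ := hx1
      by_cases hxA : x ∈ A j
      · right
        refine ⟨?_, hx2⟩
        simp only [mem_iUnion]
        exact ⟨j, j, le_refl j, hxA⟩
      · left
        simp only [mem_iUnion]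
        exact ⟨j, Or.inl ⟨hj, hxA⟩⟩
    · left
      simp only [mem_iUnion] at hx1 hx2 ⊢
      obtain ⟨j, _, hj⟩ := hx1
      exact ⟨j, Or.inr ⟨hj, fun h => hx2 ⟨j, h⟩⟩⟩

/-- Borel exhaustivity: among pairwise disjoint sets of the σ-algebra only finitely many fail to be
small at a given level. -/
lemma finite_not_small (hP : Scale P) (n : ℕ) {I : Type*} (B : I → Set X)
    (hB : ∀ i, MeasurableSet[clopenSigma X] (B i)) (hd : Pairwise (Function.onFun Disjoint B)) :
    {i | ¬ Small P n (B i)}.Finite := by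
  by_contra hinf
  rw [← Set.Infinite] at hinf
  let e : ℕ ↪ {i | ¬ Small P n (B i)} := hinf.natEmbedding
  let b : ℕ → Set X := fun k => B (e k)
  have hb : ∀ k, ¬ Small P n (b k) := fun k => (e k).2
  have hbd : Pairwise (Function.onFun Disjoint b) := by
    intro j k hjk
    apply hd
    intro h
    exact hjk (e.injective (Subtype.ext h))
  choose A hA hs using fun k => exists_clopen_approx hP (b k) (hB _) (n + 1 + 1 + k)
  let A' : ℕ → Set X := fun k => A k \ ⋃ j ∈ Set.Iio k, A j
  have hA'c : ∀ k, IsClopen (A' k) := fun k =>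
    (hA k).diff ((Set.finite_Iio k).isClopen_biUnion (fun j _ => hA j))
  have hA'd : Pairwise (Function.onFun Disjoint A') := by
    have aux : ∀ j k, j < k → Disjoint (A' j) (A' k) := by
      intro j k hjk
      rw [Set.disjoint_left]
      intro x hx hx'
      apply hx'.2
      simp only [mem_iUnion]
      exact ⟨j, hjk, hx.1⟩
    intro j k hjk
    rcases lt_or_gt_of_ne hjk with h | h
    · exact aux j k h
    · exact (aux k j h).symm
  obtain ⟨k, hk⟩ := (eventually_nullAt hP (n + 1) A' hA'd).exists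
  apply hb k
  have h2 : Small P (n + 1) (⋃ j, ((b j \ A j) ∪ (A j \ b j))) := Small.iUnion hP _ hs
  refine (Small.union hP (Small.of_nullAt (hA'c k) hk) h2).mono ?_
  intro x hx
  by_cases hxA : x ∈ A k
  · by_cases hxA' : x ∈ A' k
    · exact Or.inl hxA'
    · right
      have : ∃ j, j < k ∧ x ∈ A j := by
        by_contra h
        push Not at h
        apply hxA'
        refine ⟨hxA, ?_⟩
        simp only [mem_iUnion, not_exists]
        intro j hj
        exact h j hj
      obtain ⟨j, hj, hxj⟩ := this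
      simp only [mem_iUnion]
      refine ⟨j, Or.inr ⟨hxj, ?_⟩⟩
      intro hxb
      exact Set.disjoint_left.mp (hbd (ne_of_lt hj)) hxb hx
  · right
    simp only [mem_iUnion]
    exact ⟨k, Or.inl ⟨hx, hxA⟩⟩

end Pool.Agent.Lib.MP_174f4a_gt
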