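import Pool.Agent.Lib.MP_174f4a_gt.Main

namespace Pool.Agent.Lib.MP_174f4a_gt

open Topology Filter Set MeasureTheory

universe u v

variable {X : Type u} [TopologicalSpace X]

/-- An Ulam matrix consisting of sets of the σ-algebra generated by the clopen sets. -/
structure UlamSpace (X : Type u) [TopologicalSpace X] : Prop where
  sing : ∀ x : X, MeasurableSet[clopenSigma X] {x}
  matrix : ∃ (I : Type) (M : ℕ → I → Set X), Uncountable I ∧
    (∀ k β, MeasurableSet[clopenSigma X] (M k β)) ∧
    (∀ k, Pairwise (Function.onFun Disjoint (M k))) ∧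
    (∀ β, (⋃ k, M k β)ᶜ.Countable)

variable {P : ℕ → Set (Cp X)}

/-- the set of atoms -/
def atoms (P : ℕ → Set (Cp X)) : Set X := {x | ∃ n, ¬ Small P n {x}}

lemma atoms_countable (hP : Scale P) (hX : UlamSpace X) : (atoms P).Countable := by
  have : atoms P = ⋃ n, {x | ¬ Small P n {x}} := by
    ext x; simp [atoms]
  rw [this]
  apply countable_iUnion
  intro n
  apply Set.Finite.countable
  apply finite_not_small hP n (fun x : X => {x}) hX.sing
  intro x y hxy
  exact Set.disjoint_singleton.mpr hxy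

lemma countable_small (hP : Scale P) {C : Set X} (hC : C.Countable) (hd : Disjoint C (atoms P))
    (n : ℕ) : Small P n C := by
  rcases C.eq_empty_or_nonempty with rfl | hne
  · exact Small.of_nullAt isClopen_empty (NullAt.empty hP n)
  · obtain ⟨f, hf⟩ := hC.exists_eq_range hne
    have : C = ⋃ j, {f j} := by
      rw [hf]; ext x; simp [eq_comm]
    rw [this]
    apply Small.iUnion hP
    intro j
    have hj : f j ∉ atoms P := by
      apply Set.disjoint_left.mp hd
      rw [hf]; exact mem_range_self j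
    by_contra h
    exact hj ⟨_, h⟩

lemma compl_atoms_small (hP : Scale P) (hX : UlamSpace X) : ∀ n, Small P n (atoms P)ᶜ := by
  obtain ⟨I, M, hI, hM1, hM2, hM3⟩ := hX.matrix
  have hat : MeasurableSet[clopenSigma X] (atoms P) := by
    have hc := atoms_countable hP hX
    have : atoms P = ⋃ x ∈ atoms P, {x} := by simp
    rw [this]
    exact @MeasurableSet.biUnion _ _ (clopenSigma X) _ _ hc (fun x _ => hX.sing x)
  -- some column is entirely negligible
  have hcol : ∃ β, ∀ k n, Small P n (M k β \ atoms P) := by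
    by_contra hcon
    push Not at hcon
    have : (Set.univ : Set I) ⊆ ⋃ k, ⋃ n, {β | ¬ Small P n (M k β \ atoms P)} := by
      intro β _
      obtain ⟨k, n, h⟩ := hcon β
      simp only [mem_iUnion]
      exact ⟨k, n, h⟩
    have hcount : (Set.univ : Set I).Countable := by
      apply Set.Countable.mono this
      apply countable_iUnion
      intro k
      apply countable_iUnion
      intro n
      apply Set.Finite.countable
      apply finite_not_small hP n (fun β => M k β \ atoms P)
      · intro β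
        exact (hM1 k β).diff hat
      · intro β γ hβγ
        exact (hM2 k hβγ).mono sdiff_subset sdiff_subset
    exact not_countable (Set.countable_univ_iff.mp hcount)
  obtain ⟨β, hβ⟩ := hcol
  intro n
  have h1 : Small P (n + 1) (⋃ k, (M k β \ atoms P)) := Small.iUnion hP _ (fun k => hβ k _)
  have h2 : Small P (n + 1) ((⋃ k, M k β)ᶜ \ atoms P) := by
    apply countable_small hP ((hM3 β).mono sdiff_subset)
    exact Set.disjoint_sdiff_left
  refine (Small.union hP h1 h2).mono ?_
  intro x hx
  by_cases hxM : x ∈ ⋃ k, M k β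
  · left
    simp only [mem_iUnion] at hxM ⊢
    obtain ⟨k, hk⟩ := hxM
    exact ⟨k, hk, hx⟩
  · right
    exact ⟨hxM, hx⟩

/-- the support at every level is finite -/
lemma exists_finite_support (hP : Scale P) (hX : UlamSpace X) (n : ℕ) :
    ∃ F : Finset X, ∀ f : Cp X, (∀ x ∈ F, (f : X → ℝ) x = 0) → f ∈ P n := by
  classical
  by_cases hne : Nonempty X
  swap
  · refine ⟨∅, fun f _ => ?_⟩
    have : f = 0 := by
      apply Subtype.ext; funext x; exact absurd ⟨x⟩ hne
    rw [this]; exact hP.zero n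
  obtain ⟨A, hA1, hA2, hA3, hA4⟩ := compl_atoms_small hP hX (n + 1)
  obtain ⟨p, hp⟩ := (Set.countable_iff_exists_subset_range).mp (atoms_countable hP hX)
  by_contra hcon
  push Not at hcon
  choose f hf1 hf2 using fun k : ℕ => hcon ((Finset.range k).image p)
  let g : ℕ → Cp X := fun k => res (A k)ᶜ (hA1 k).compl (f k)
  have hg : Tendsto g atTop (𝓝 0) := by
    rw [tendsto_Cp_iff]
    intro x
    have : ∀ᶠ k in atTop, (g k : X → ℝ) x = 0 := by
      by_cases hx : x ∈ atoms P
      · obtain ⟨j, hj⟩ := hp hx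
        filter_upwards [eventually_gt_atTop j] with k hk
        by_cases hxA : x ∈ A k
        · exact res_apply_of_notMem (hA1 k).compl (f k) (by simpa using hxA)
        · change (res (A k)ᶜ (hA1 k).compl (f k) : X → ℝ) x = 0
          rw [res_apply_of_mem (hA1 k).compl (f k) hxA]
          apply hf1 k
          rw [← hj]
          exact Finset.mem_image_of_mem p (Finset.mem_range.mpr hk)
      · have hx' := hA4 hx
        simp only [mem_iUnion] at hx'
        obtain ⟨i, hi⟩ := hx'
        filter_upwards [eventually_ge_atTop i] with k hk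
        exact res_apply_of_notMem (hA1 k).compl (f k) (by simpa using hA2 hk hi)
    exact tendsto_const_nhds.congr' (by filter_upwards [this] with i hi; rw [hi]; rfl)
  obtain ⟨k, hk⟩ := (hP.seq (n + 1) g hg).exists
  apply hf2 k
  have h : f k = res (A k) (hA1 k) (f k) + g k := by
    apply Subtype.ext
    exact (Set.indicator_self_add_compl (A k) (f k : X → ℝ)).symm
  rw [h]
  apply hP.add
  · exact hA3 k _ (fun x hx => res_apply_of_notMem (hA1 k) (f k) hx)
  · exact hk

/-- scalar multiple of the indicator of a clopen set -/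
noncomputable def cind (D : Set X) (hD : IsClopen D) (c : ℝ) : Cp X :=
  ⟨D.indicator (fun _ => c), continuous_const.indicator (by
    intro a ha
    rw [hD.frontier_eq] at ha
    exact absurd ha (Set.notMem_empty a))⟩

lemma cind_of_mem {D : Set X} (hD : IsClopen D) (c : ℝ) {x : X} (hx : x ∈ D) :
    (cind D hD c : X → ℝ) x = c := by
  change D.indicator (fun _ => c) x = c
  exact Set.indicator_of_mem hx _

lemma cind_of_notMem {D : Set X} (hD : IsClopen D) (c : ℝ) {x : X} (hx : x ∉ D) :
    (cind D hD c : X → ℝ) x = 0 := by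
  change D.indicator (fun _ => c) x = 0
  exact Set.indicator_of_notMem hx _

lemma cind_small (hP : Scale P) (D : Set X) (hD : IsClopen D) (n : ℕ) :
    ∃ δ > 0, ∀ c : ℝ, |c| < δ → cind D hD c ∈ P n := by
  by_contra hcon
  push Not at hcon
  choose c hc1 hc2 using fun k : ℕ => hcon (1 / ((k : ℝ) + 1)) (by positivity)
  have hc0 : Tendsto c atTop (𝓝 0) := by
    rw [tendsto_zero_iff_abs_tendsto_zero]
    exact squeeze_zero (fun k => abs_nonneg _) (fun k => (hc1 k).le) tendsto_one_div_add_atTop_nhds_zero_nat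
  have : Tendsto (fun k => cind D hD (c k)) atTop (𝓝 0) := by
    rw [tendsto_Cp_iff]
    intro x
    by_cases hx : x ∈ D
    · have e : ∀ k, (cind D hD (c k) : X → ℝ) x = c k := fun k => cind_of_mem hD _ hx
      simp only [e]
      exact hc0
    · have e : ∀ k, (cind D hD (c k) : X → ℝ) x = 0 := fun k => cind_of_notMem hD _ hx
      simp only [e]
      exact tendsto_const_nhds
  obtain ⟨k, hk⟩ := (hP.seq n _ this).exists
  exact hc2 k hk

lemma sum_cind_small (hP : Scale P) (D : X → Set X) (hD : ∀ x, IsClopen (D x)) (F : Finset X) :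
    ∀ n, ∃ δ > 0, ∀ c : X → ℝ, (∀ x ∈ F, |c x| < δ) → ∑ x ∈ F, cind (D x) (hD x) (c x) ∈ P n := by
  classical
  induction F using Finset.induction_on with
  | empty => intro n; exact ⟨1, one_pos, fun c _ => by simpa using hP.zero n⟩
  | insert a s ha ih =>
    intro n
    obtain ⟨δ1, h1, h1'⟩ := ih (n + 1)
    obtain ⟨δ2, h2, h2'⟩ := cind_small hP (D a) (hD a) (n + 1)
    refine ⟨min δ1 δ2, lt_min h1 h2, fun c hc => ?_⟩
    rw [Finset.sum_insert ha]
    apply hP.add
    · exact h2' _ (lt_of_lt_of_le (hc a (Finset.mem_insert_self a s)) (min_le_right _ _))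
    · exact h1' c (fun x hx => lt_of_lt_of_le (hc x (Finset.mem_insert_of_mem hx)) (min_le_left _ _))

lemma mem_nhds_zero [TotallySeparatedSpace X] (hP : Scale P) (hX : UlamSpace X) (n : ℕ) :
    P n ∈ 𝓝 (0 : Cp X) := by
  classical
  obtain ⟨F, hF⟩ := exists_finite_support hP hX (n + 1)
  have hsep : ∀ x : X, ∃ D : Set X, IsClopen D ∧ x ∈ D ∧ ∀ y ∈ F, y ≠ x → y ∉ D := by
    intro x
    have : ∀ y : X, ∃ D : Set X, IsClopen D ∧ x ∈ D ∧ (y ≠ x → y ∉ D) := by
      intro y
      by_cases hyx : y = x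
      · exact ⟨univ, isClopen_univ, mem_univ _, fun h => absurd hyx h⟩
      · obtain ⟨D, hD, hx, hy⟩ := exists_isClopen_of_totally_separated (Ne.symm hyx)
        exact ⟨D, hD, hx, fun _ => hy⟩
    choose D hD1 hD2 hD3 using this
    refine ⟨⋂ y ∈ F, D y, ?_, ?_, ?_⟩
    · exact isClopen_biInter_finset (fun y _ => hD1 y)
    · simp only [mem_iInter]; exact fun y _ => hD2 y
    · intro y hy hyx hmem
      simp only [mem_iInter] at hmem
      exact hD3 y hyx (hmem y hy)
  choose D hD1 hD2 hD3 using hsep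
  obtain ⟨δ, hδ, hsum⟩ := sum_cind_small hP D hD1 F (n + 1)
  have hnb : {f : Cp X | ∀ x ∈ F, |(f : X → ℝ) x| < δ} ∈ 𝓝 (0 : Cp X) := by
    have : {f : Cp X | ∀ x ∈ F, |(f : X → ℝ) x| < δ} = ⋂ x ∈ F, {f : Cp X | |(f : X → ℝ) x| < δ} := by
      ext f; simp
    rw [this, biInter_finset_mem]
    intro x _
    have hcont : Continuous (fun f : Cp X => |(f : X → ℝ) x|) :=
      ((continuous_apply x).comp continuous_subtype_val).abs
    apply (isOpen_lt hcont continuous_const).mem_nhds
    simpa using hδ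
  filter_upwards [hnb] with f hf
  have hdec : f = (f - ∑ x ∈ F, cind (D x) (hD1 x) ((f : X → ℝ) x)) +
      ∑ x ∈ F, cind (D x) (hD1 x) ((f : X → ℝ) x) := by abel
  rw [hdec]
  apply hP.add
  · apply hF
    intro y hy
    have h1 : ((∑ x ∈ F, cind (D x) (hD1 x) ((f : X → ℝ) x) : Cp X) : X → ℝ) y = (f : X → ℝ) y := by
      rw [AddSubgroup.val_finsetSum, Finset.sum_apply]
      rw [Finset.sum_eq_single y]
      · exact cind_of_mem (hD1 y) _ (hD2 y)
      · intro x _ hxy
        exact cind_of_notMem (hD1 x) _ (hD3 x y hy (Ne.symm hxy))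
      · intro h; exact absurd hy h
    change (f : X → ℝ) y - ((∑ x ∈ F, cind (D x) (hD1 x) ((f : X → ℝ) x) : Cp X) : X → ℝ) y = 0
    rw [h1, sub_self]
  · exact hsum _ hf

/-- sequence of closed symmetric neighbourhoods -/
lemma exists_nhds_seq {G : Type v} [AddGroup G] [TopologicalSpace G] [IsTopologicalAddGroup G]
    (U : Set G) (hU : U ∈ 𝓝 (0 : G)) : ∃ V : ℕ → Set G, V 0 ⊆ U ∧ (∀ n, V n ∈ 𝓝 (0 : G)) ∧
      (∀ n, IsClosed (V n)) ∧ (∀ n a b, a ∈ V (n + 1) → b ∈ V (n + 1) → a + b ∈ V n) := by
  have step : ∀ W : {W : Set G // W ∈ 𝓝 (0 : G) ∧ IsClosed W}, ∃ W' : {W : Set G // W ∈ 𝓝 (0 : G) ∧ IsClosed W},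
      ∀ a b, a ∈ W'.1 → b ∈ W'.1 → a + b ∈ W.1 := by
    rintro ⟨W, hW, _⟩
    obtain ⟨V, hV, hVc, _, hVa⟩ := exists_closed_nhds_zero_neg_eq_add_subset hW
    exact ⟨⟨V, hV, hVc⟩, fun a b ha hb => hVa (Set.add_mem_add ha hb)⟩
  choose g hg using step
  obtain ⟨V0, hV0, hV0c, _, hV0a⟩ := exists_closed_nhds_zero_neg_eq_add_subset hU
  let V : ℕ → {W : Set G // W ∈ 𝓝 (0 : G) ∧ IsClosed W} := fun n => g^[n] ⟨V0, hV0, hV0c⟩
  refine ⟨fun n => (V n).1, ?_, fun n => (V n).2.1, fun n => (V n).2.2, ?_⟩
  · intro a ha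
    have h0 : (0 : G) ∈ V0 := mem_of_mem_nhds hV0
    have := hV0a (Set.add_mem_add ha h0)
    simpa using this
  · intro n a b ha hb
    have e : V (n + 1) = g (V n) := by simp only [V, Function.iterate_succ_apply']
    simp only [e] at ha hb
    exact hg (V n) a b ha hb

/-- **Main lemma.** If a totally separated space `X` carries an Ulam matrix in the σ-algebra
generated by its clopen sets, then `Cp X` is an s-group. -/
theorem isSGroup_Cp [TotallySeparatedSpace X] (hX : UlamSpace X) : IsSGroup.{u, v} (Cp X) := by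
  refine ⟨inferInstance, ?_⟩
  intro G _ _ _ _ φ hφ
  apply continuous_of_continuousAt_zero
  intro U hU
  rw [map_zero] at hU
  obtain ⟨V, hV0, hV1, hV2, hV3⟩ := exists_nhds_seq U hU
  have hP : Scale (fun n => {f : Cp X | φ f ∈ V n}) := by
    refine ⟨?_, ?_, ?_, ?_⟩
    · intro n
      simpa using mem_of_mem_nhds (hV1 n)
    · intro n f g hf hg
      simp only [mem_ofPred_eq, map_add] at *
      exact hV3 n _ _ hf hg
    · intro n u hu
      have := hφ hu
      rw [map_zero] at this
      exact this (hV1 n)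
    · intro n u f hu h
      exact (hV2 n).mem_of_tendsto (hφ hu) (Eventually.of_forall h)
  have := mem_nhds_zero hP hX 0
  filter_upwards [this] with f hf using hV0 hf

end Pool.Agent.Lib.MP_174f4a_gt
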