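import Pool.Agent.Lib.MP_174f4a_gt.Coded

namespace Pool.Agent.Lib.MP_174f4a_gt

open Topology Filter Set MeasureTheory

namespace Sorgenfrey

/-- the real number underlying a point of the Sorgenfrey line -/
def val : Sorgenfrey → ℝ := fun x => x

lemma isOpen_Ico (a b : ℝ) : IsOpen (val ⁻¹' (Set.Ico a b)) :=
  TopologicalSpace.isOpen_generateFrom_of_mem ⟨a, b, rfl⟩

lemma isOpen_Ici (a : ℝ) : IsOpen (val ⁻¹' (Set.Ici a)) := by
  have : val ⁻¹' (Set.Ici a) = ⋃ b : ℝ, val ⁻¹' (Set.Ico a b) := by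
    ext x
    simp only [mem_preimage, mem_Ici, mem_iUnion, mem_Ico, exists_and_left]
    exact ⟨fun h => ⟨h, exists_gt _⟩, fun h => h.1⟩
  rw [this]
  exact isOpen_iUnion (fun b => isOpen_Ico a b)

lemma isOpen_Iio (a : ℝ) : IsOpen (val ⁻¹' (Set.Iio a)) := by
  have : val ⁻¹' (Set.Iio a) = ⋃ b : ℝ, val ⁻¹' (Set.Ico b a) := by
    ext x
    simp only [mem_preimage, mem_Iio, mem_iUnion, mem_Ico]
    exact ⟨fun h => ⟨val x, le_rfl, h⟩, fun ⟨b, h⟩ => h.2⟩
  rw [this]
  exact isOpen_iUnion (fun b => isOpen_Ico b a)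

lemma isClopen_Ici (a : ℝ) : IsClopen (val ⁻¹' (Set.Ici a)) := by
  refine ⟨⟨?_⟩, isOpen_Ici a⟩
  have : (val ⁻¹' (Set.Ici a))ᶜ = val ⁻¹' (Set.Iio a) := by
    ext x; simp
  rw [this]
  exact isOpen_Iio a

lemma isClopen_Iio (a : ℝ) : IsClopen (val ⁻¹' (Set.Iio a)) := by
  have : val ⁻¹' (Set.Iio a) = (val ⁻¹' (Set.Ici a))ᶜ := by
    ext x; simp
  rw [this]
  exact (isClopen_Ici a).compl

lemma isClopen_Ico (a b : ℝ) : IsClopen (val ⁻¹' (Set.Ico a b)) := by
  have : val ⁻¹' (Set.Ico a b) = val ⁻¹' (Set.Ici a) ∩ val ⁻¹' (Set.Iio b) := by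
    ext x; simp
  rw [this]
  exact (isClopen_Ici a).inter (isClopen_Iio b)

end Sorgenfrey

open Sorgenfrey

/-- the underlying real number of a point of a subspace of the Sorgenfrey line -/
def rval (S : Set Sorgenfrey) (x : S) : ℝ := Sorgenfrey.val x.1

lemma rval_injective (S : Set Sorgenfrey) : Function.Injective (rval S) :=
  fun _ _ h => Subtype.ext h

lemma isClopen_rval {S : Set Sorgenfrey} {A : Set ℝ} (h : IsClopen (val ⁻¹' A)) :
    IsClopen (rval S ⁻¹' A) := h.preimage continuous_subtype_val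

instance (S : Set Sorgenfrey) : TotallySeparatedSpace S := by
  constructor
  have aux : ∀ x y : S, rval S x < rval S y → ∃ u v : Set S, IsOpen u ∧ IsOpen v ∧ x ∈ u ∧ y ∈ v ∧
      univ ⊆ u ∪ v ∧ Disjoint u v := by
    intro x y h
    refine ⟨rval S ⁻¹' (Set.Iio (rval S y)), rval S ⁻¹' (Set.Ici (rval S y)),
      (isClopen_rval (isClopen_Iio _)).isOpen, (isClopen_rval (isClopen_Ici _)).isOpen, h,
      (show rval S y ≤ rval S y from le_rfl), ?_, ?_⟩
    · intro z _
      rcases lt_or_ge (rval S z) (rval S y) with h | h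
      · exact Or.inl h
      · exact Or.inr h
    · rw [Set.disjoint_left]
      intro z hz hz'
      exact (not_lt.mpr (show rval S y ≤ rval S z from hz')) (show rval S z < rval S y from hz)
  intro x _ y _ hxy
  rcases lt_or_gt_of_ne (fun h => hxy (rval_injective S h) : rval S x ≠ rval S y) with h | h
  · exact aux x y h
  · obtain ⟨u, v, hu, hv, hy, hx, huv, hd⟩ := aux y x h
    exact ⟨v, u, hv, hu, hx, hy, by rwa [union_comm], hd.symm⟩

lemma measurable_rval (S : Set Sorgenfrey) : Measurable[clopenSigma S] (rval S) := by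
  let _ : MeasurableSpace S := clopenSigma S
  apply measurable_of_Iio
  intro a
  apply MeasurableSpace.measurableSet_generateFrom
  exact isClopen_rval (isClopen_Iio a)

/-- The subspace `{ ± exp (xs a) }` of the Sorgenfrey line -/
def SS : Set Sorgenfrey := {y | val y ≠ 0 ∧ Real.log (val y) ∈ Set.range xs}

lemma ulamSpace_SS : UlamSpace SS := by
  refine ⟨?_, I1, fun k b => rval SS ⁻¹' (Real.log ⁻¹' (mat k b)), inferInstance, ?_, ?_, ?_⟩
  · intro x
    have : ({x} : Set SS) = rval SS ⁻¹' {rval SS x} := by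
      ext y
      simp only [mem_singleton_iff, mem_preimage]
      exact ⟨fun h => by rw [h], fun h => rval_injective SS h⟩
    rw [this]
    exact measurable_rval SS (measurableSet_singleton _)
  · intro k b
    exact measurable_rval SS (Real.measurable_log (measurableSet_mat k b))
  · intro k a b hab
    exact ((mat_disjoint k hab).preimage _).preimage _
  · intro b
    have hinj : Set.InjOn (rval SS) (⋃ k, rval SS ⁻¹' (Real.log ⁻¹' (mat k b)))ᶜ :=
      (rval_injective SS).injOn
    apply Set.countable_of_injective_of_countable_image hinj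
    apply Set.Countable.mono (s₂ := ⋃ c ∈ Set.Iic b, {Real.exp (xs c), -Real.exp (xs c)})
    · rintro _ ⟨y, hy, rfl⟩
      obtain ⟨hy0, c, hc⟩ := y.2
      have hcb : c ≤ b := by
        by_contra hlt
        push Not at hlt
        obtain ⟨k, hk⟩ := mem_iUnion_mat hlt
        apply hy
        simp only [mem_iUnion, mem_preimage]
        refine ⟨k, ?_⟩
        change Real.log (val y.1) ∈ mat k b
        rw [← hc]; exact hk
      simp only [mem_iUnion]
      refine ⟨c, hcb, ?_⟩
      have hexp : Real.exp (xs c) = |rval SS y| := by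
        rw [hc]
        change Real.exp (Real.log (rval SS y)) = |rval SS y|
        exact Real.exp_log_eq_abs hy0
      rw [hexp]
      rcases abs_choice (rval SS y) with h | h
      · left; exact h.symm
      · right
        change rval SS y = - |rval SS y|
        rw [h, neg_neg]
    · exact (countable_Iic b).biUnion (fun c _ => by simp)

lemma exists_eps (F : Finset ℝ) : ∃ ε > 0, ∀ x ∈ F, ∀ y ∈ F, x + y ≠ 0 → 2 * ε ≤ |x + y| := by
  classical
  have h1 : ∀ z : ℝ, ∃ ε > 0, z ≠ 0 → 2 * ε ≤ |z| := by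
    intro z
    by_cases hz : z = 0
    · exact ⟨1, one_pos, fun h => absurd hz h⟩
    · exact ⟨|z| / 2, by positivity, fun _ => by linarith⟩
  choose e he1 he2 using h1
  have h2 : ∀ G : Finset ℝ, ∃ ε > 0, ∀ z ∈ G, z ≠ 0 → 2 * ε ≤ |z| := by
    intro G
    induction G using Finset.induction_on with
    | empty => exact ⟨1, one_pos, by simp⟩
    | insert a s ha ih =>
      obtain ⟨ε, hε, h⟩ := ih
      refine ⟨min ε (e a), lt_min hε (he1 a), ?_⟩
      intro z hz hz0
      rcases Finset.mem_insert.mp hz with rfl | hz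
      · have := he2 z hz0
        have := min_le_right ε (e z)
        linarith
      · have := h z hz hz0
        have := min_le_left ε (e a)
        linarith
  obtain ⟨ε, hε, h⟩ := h2 ((F ×ˢ F).image (fun p => p.1 + p.2))
  refine ⟨ε, hε, fun x hx y hy hxy => h _ ?_ hxy⟩
  exact Finset.mem_image.mpr ⟨(x, y), Finset.mem_product.mpr ⟨hx, hy⟩, rfl⟩

/-- a clopen neighbourhood of a finite set of reals that meets the antidiagonal only in the
obvious points -/
lemma exists_nbhd (F : Finset ℝ) : ∃ U : Set ℝ, IsClopen (val ⁻¹' U) ∧ (↑F ⊆ U) ∧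
    ∀ t, t ∈ U → -t ∈ U → t ∈ F := by
  obtain ⟨ε, hε, h⟩ := exists_eps F
  refine ⟨⋃ x ∈ F, Set.Ico x (x + ε), ?_, ?_, ?_⟩
  · have : val ⁻¹' (⋃ x ∈ F, Set.Ico x (x + ε)) = ⋃ x ∈ F, val ⁻¹' (Set.Ico x (x + ε)) := by
      simp only [preimage_iUnion]
    rw [this]
    exact isClopen_biUnion_finset (fun x _ => isClopen_Ico _ _)
  · intro x hx
    simp only [mem_iUnion]
    exact ⟨x, hx, le_rfl, by linarith⟩
  · intro t ht ht'
    simp only [mem_iUnion, mem_Ico] at ht ht'
    obtain ⟨x, hx, hx1, hx2⟩ := ht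
    obtain ⟨y, hy, hy1, hy2⟩ := ht'
    by_cases hxy : x + y = 0
    · have : t = x := by linarith
      rw [this]; exact hx
    · exfalso
      have := h x hx y hy hxy
      rcases abs_cases (x + y) with ⟨h1, h2⟩ | ⟨h1, h2⟩
      · apply hxy; linarith
      · linarith

lemma not_frechetUrysohn_SS : ¬ FrechetUrysohnSpace (Cp SS) := by
  classical
  intro hFU
  choose U hU1 hU2 hU3 using exists_nbhd
  let V : Finset SS → Set SS := fun F => rval SS ⁻¹' (U (F.image (rval SS)))
  have hV : ∀ F, IsClopen (V F) := fun F => isClopen_rval (hU1 _)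
  let f : Finset SS → Cp SS := fun F => cind (V F)ᶜ (hV F).compl 1
  have h0 : (0 : Cp SS) ∈ closure (Set.range f) := by
    rw [mem_closure_iff_nhds]
    intro W hW
    rw [nhds_subtype_eq_comap, mem_comap] at hW
    obtain ⟨t, ht, htW⟩ := hW
    rw [nhds_pi, Filter.mem_pi] at ht
    obtain ⟨I, hI, s, hs, hst⟩ := ht
    refine ⟨f hI.toFinset, htW ?_, mem_range_self _⟩
    apply hst
    intro x hx
    have hxV : x ∈ V hI.toFinset := by
      apply hU2
      simp only [Finset.coe_image]
      exact ⟨x, by simpa using hx, rfl⟩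
    have : (f hI.toFinset : SS → ℝ) x = 0 := cind_of_notMem _ _ (by simpa using hxV)
    rw [this]
    exact mem_of_mem_nhds (hs x)
  rw [mem_closure_iff_seq_limit] at h0
  obtain ⟨u, hu, hlim⟩ := h0
  choose F hF using hu
  rw [tendsto_Cp_iff] at hlim
  -- the points ± exp (xs a)
  have hp : ∀ a : I1, ((Real.exp (xs a) : ℝ) : Sorgenfrey) ∈ SS := by
    intro a
    exact ⟨(Real.exp_pos _).ne', a, (Real.log_exp _).symm⟩
  have hm : ∀ a : I1, ((-Real.exp (xs a) : ℝ) : Sorgenfrey) ∈ SS := by
    intro a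
    refine ⟨(neg_lt_zero.mpr (Real.exp_pos _)).ne, a, ?_⟩
    change xs a = Real.log (-Real.exp (xs a))
    rw [Real.log_neg_eq_log, Real.log_exp]
  have key : ∀ a : I1, ∃ i, Real.exp (xs a) ∈ (F i).image (rval SS) := by
    intro a
    have h1 := hlim ⟨_, hp a⟩
    have h2 := hlim ⟨_, hm a⟩
    have e1 : ∀ᶠ i in atTop, Real.exp (xs a) ∈ U ((F i).image (rval SS)) := by
      have := h1.eventually (gt_mem_nhds (show ((0 : Cp SS) : SS → ℝ) ⟨_, hp a⟩ < 1 from one_pos))
      filter_upwards [this] with i hi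
      by_contra hcon
      rw [← hF i] at hi
      have : (f (F i) : SS → ℝ) ⟨_, hp a⟩ = 1 := cind_of_mem _ _ hcon
      rw [this] at hi
      exact lt_irrefl _ hi
    have e2 : ∀ᶠ i in atTop, -Real.exp (xs a) ∈ U ((F i).image (rval SS)) := by
      have := h2.eventually (gt_mem_nhds (show ((0 : Cp SS) : SS → ℝ) ⟨_, hm a⟩ < 1 from one_pos))
      filter_upwards [this] with i hi
      by_contra hcon
      rw [← hF i] at hi
      have : (f (F i) : SS → ℝ) ⟨_, hm a⟩ = 1 := cind_of_mem _ _ hcon
      rw [this] at hi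
      exact lt_irrefl _ hi
    obtain ⟨i, hi1, hi2⟩ := (e1.and e2).exists
    exact ⟨i, hU3 _ _ hi1 hi2⟩
  have hcount : (Set.range (fun a : I1 => Real.exp (xs a))).Countable := by
    apply Set.Countable.mono (s₂ := ⋃ i, (((F i).image (rval SS) : Finset ℝ) : Set ℝ))
    · rintro _ ⟨a, rfl⟩
      obtain ⟨i, hi⟩ := key a
      exact mem_iUnion.mpr ⟨i, hi⟩
    · exact countable_iUnion (fun i => (Finset.finite_toSet _).countable)
  have : Countable I1 := by
    have hinj : Function.Injective (fun a : I1 => Real.exp (xs a)) :=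
      Real.exp_injective.comp xs_injective
    rw [← Set.image_univ] at hcount
    exact Set.countable_univ_iff.mp
      (Set.countable_of_injective_of_countable_image hinj.injOn hcount)
  exact not_countable this

end Pool.Agent.Lib.MP_174f4a_gt
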